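import Pool.Agent.helper84.NR.Spec

set_option autoImplicit false

namespace Pool.Agent.helper84.NR

open scoped Classical
open Finset

theorem FIN_topH (hIDX : IDX_stmt) (hEDG : EDG_stmt) (hWW0 : WW0_stmt) (V F : Type) [Fintype V]
    [Fintype F] (M : PMap V F) (x y : V) (hB : Bad M x y) :
    TopH M x y ((YF M y).filter (fun B => (QQ M x B).Nonempty)) := by
  obtain ⟨hE1, hE2⟩ := hEDG V F M
  refine ⟨hB.ne, ?_, ?_, ?_⟩
  · intro B hBJ
    have h1 := (mem_filter.1 hBJ).1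
    exact (mem_filter.1 h1).2
  · intro B hBJ
    have h1 : OnV M.toCyc B y := (mem_filter.1 (mem_filter.1 hBJ).1).2
    obtain ⟨s, hs⟩ := (mem_filter.1 hBJ).2
    have h2 : Adj M.toCyc x s ∧ OnV M.toCyc B s := (mem_filter.1 hs).2
    obtain ⟨f, hf⟩ := h2.1
    obtain ⟨hfx, hfs, _⟩ := hE1 f x s hf
    obtain ⟨a, ha, hav⟩ := (hIDX V F M.toCyc B (st M y B)).2.1 s h2.2
    have hw : ww M y B a = s := hav
    refine ⟨a, ?_, ha, f, hfx, ?_⟩
    · rcases Nat.eq_zero_or_pos a with h0 | h0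
      · exfalso
        subst h0
        have h3 := (hWW0 V F M y B h1).1
        rw [hw] at h3
        subst h3
        exact hB.ne f ⟨hfx, hfs⟩
      · exact h0
    · rw [hw]
      exact hfs
  · intro s hs
    obtain ⟨f, hfs, hfy⟩ := hB.nb s hs
    refine ⟨f, ?_, hfs⟩
    refine mem_filter.2 ⟨mem_filter.2 ⟨mem_univ _, hfy⟩, s, ?_⟩
    exact mem_filter.2 ⟨mem_univ _, hs, hfs⟩

theorem FIN (hIDX : IDX_stmt) (hEDG : EDG_stmt) (hWW0 : WW0_stmt) (hBAD : BAD_stmt)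
    (hGE8 : GE8_stmt) (hTOP : TOP_stmt) : FIN_stmt := by
  intro V F _ _ M hchi x y hnb
  by_contra hN
  have hB := hBAD V F M x y hnb hN
  have h1 := hTOP V F M x y _ (FIN_topH hIDX hEDG hWW0 V F M x y hB)
  have h2 := hGE8 V F M x y hB
  linarith

end Pool.Agent.helper84.NR
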